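import Mathlib
import Pool.Agent.H.MP_c8ce56_lc.A

set_option autoImplicit false

namespace Pool.Agent.Results.MP_c8ce56_lc.Indep

open Cardinal Pool.Agent.H.MP_c8ce56_lc

theorem result : EB (Equiv.Perm ℕ) ↔ (𝔠 : Cardinal.{0}) ≠ ℵ₁ :=
  ⟨fun h c => ch (by simp [mk_perm_eq_two_power, c]) h,
    fun c => nch (aleph_one_le_continuum.lt_of_ne' c)⟩

end Pool.Agent.Results.MP_c8ce56_lc.Indep
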